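import Pool.Agent.H39.EAG.Targets

/-!
# Row CNT: all classes are met
-/

set_option autoImplicit false

open Finset Filter Topology Pool.Agent.H39.EAG

namespace Pool.Agent.H10.EAG

lemma ct_prod {A B C : Type} [Fintype A] [Fintype B] [Fintype C] (e : A ≃ B × C) (P : A → Prop)
    (P1 : B → Prop) (P2 : C → Prop) (h : ∀ a, P a ↔ P1 (e a).1 ∧ P2 (e a).2) :
    cnt P = cnt P1 * cnt P2 := by
  classical
  unfold cnt
  rw [← Nat.cast_mul, ← card_product]
  refine congrArg Nat.cast (card_bij (fun a _ => e a) ?_ ?_ ?_)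
  · intro a ha
    rw [mem_filter] at ha
    rw [mem_product, mem_filter, mem_filter]
    exact ⟨⟨mem_univ _, ((h a).1 ha.2).1⟩, mem_univ _, ((h a).1 ha.2).2⟩
  · intro a _ b _ hab
    exact e.injective hab
  · intro b hb
    rw [mem_product, mem_filter, mem_filter] at hb
    refine ⟨e.symm b, ?_, e.apply_symm_apply b⟩
    rw [mem_filter]
    refine ⟨mem_univ _, (h _).2 ?_⟩
    rw [e.apply_symm_apply]
    exact ⟨hb.1.2, hb.2.2⟩

lemma ct_one (W : Type) [Fintype W] [DecidableEq W] (K : ℕ) (hK : Fintype.card W ≤ K) :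
    cnt (fun g : W → Bool × Bool => ∃ v, g v = (true, true)) ≤
      (1 - (3 / 4 : ℝ) ^ K) * 4 ^ Fintype.card W := by
  classical
  have h1 : cnt (fun g : W → Bool × Bool => ∃ v, g v = (true, true)) +
      cnt (fun g : W → Bool × Bool => ¬ ∃ v, g v = (true, true)) = 4 ^ Fintype.card W := by
    unfold cnt
    rw [← Nat.cast_add, card_filter_add_card_filter_not, card_univ, Fintype.card_fun]
    simp
  have h2 : cnt (fun g : W → Bool × Bool => ¬ ∃ v, g v = (true, true)) =
      3 ^ Fintype.card W := by
    unfold cnt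
    have e : ∀ inst : DecidablePred fun g : W → Bool × Bool => ¬ ∃ v, g v = (true, true),
        @Finset.filter _ (fun g : W → Bool × Bool => ¬ ∃ v, g v = (true, true)) inst univ =
        Fintype.piFinset (fun _ : W => (univ : Finset (Bool × Bool)).erase (true, true)) := by
      intro inst
      ext g
      simp
    rw [e, Fintype.card_piFinset, prod_const, card_univ, card_erase_of_mem (mem_univ _),
      card_univ, Fintype.card_prod, Fintype.card_bool]
    norm_num
  have h3 : (3 / 4 : ℝ) ^ K ≤ (3 / 4 : ℝ) ^ Fintype.card W :=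
    pow_le_pow_of_le_one (by norm_num) (by norm_num) hK
  have h4 : (3 / 4 : ℝ) ^ Fintype.card W * 4 ^ Fintype.card W = 3 ^ Fintype.card W := by
    rw [← mul_pow]
    norm_num
  have h5 : (0 : ℝ) < 4 ^ Fintype.card W := by positivity
  have h6 := mul_le_mul_of_nonneg_right h3 h5.le
  rw [h2] at h1
  linarith

/-- CNT: all classes are met. -/
theorem pf_CNT : T_CNT := by
  intro W _ _ K k
  induction k generalizing W with
  | zero =>
    intro c _
    rw [pow_zero, one_mul]
    unfold cnt
    refine (Nat.cast_le.2 (card_le_univ _)).trans (le_of_eq ?_)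
    rw [Fintype.card_fun]
    simp
  | succ k ih =>
    intro c hc
    classical
    have hcard : Fintype.card {v // c v = k} ≤ K := by
      rw [Fintype.card_subtype]
      exact hc k (Nat.lt_succ_self k)
    have hprod := ct_prod (Equiv.piEquivPiSubtypeProd (fun v : W => c v = k)
        (fun _ : W => Bool × Bool))
      (fun g : W → Bool × Bool => ∀ i < k + 1, ∃ v, c v = i ∧ g v = (true, true))
      (fun g => ∃ v, g v = (true, true))
      (fun g => ∀ i < k, ∃ v : {v // ¬ c v = k}, c v.1 = i ∧ g v = (true, true)) (by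
        intro g
        constructor
        · intro h
          constructor
          · obtain ⟨v, hv, hg⟩ := h k (Nat.lt_succ_self k)
            exact ⟨⟨v, hv⟩, hg⟩
          · intro i hi
            obtain ⟨v, hv, hg⟩ := h i (hi.trans (Nat.lt_succ_self k))
            exact ⟨⟨v, by omega⟩, hv, hg⟩
        · rintro ⟨⟨v, hg⟩, h2⟩ i hi
          rcases Nat.lt_succ_iff_lt_or_eq.1 hi with hi' | rfl
          · obtain ⟨v, hv, hg⟩ := h2 i hi'
            exact ⟨v.1, hv, hg⟩
          · exact ⟨v.1, v.2, hg⟩)
    have h1 := ct_one {v // c v = k} K hcard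
    have h2 := ih {v // ¬ c v = k} (fun v => c v.1) (by
      intro i hi
      refine le_trans ?_ (hc i (hi.trans (Nat.lt_succ_self k)))
      refine card_le_card_of_injOn (fun v => v.1) ?_ ?_
      · intro v hv
        have hv' := (mem_filter.1 (mem_coe.1 hv)).2
        exact mem_coe.2 (mem_filter.2 ⟨mem_univ _, hv'⟩)
      · intro v _ w _ hvw
        exact Subtype.ext hvw)
    have hK0 : (0 : ℝ) ≤ 1 - (3 / 4 : ℝ) ^ K := by
      have : (3 / 4 : ℝ) ^ K ≤ 1 := pow_le_one₀ (by norm_num) (by norm_num)
      linarith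
    have hsum : Fintype.card {v // c v = k} + Fintype.card {v // ¬ c v = k} =
        Fintype.card W := by
      rw [Fintype.card_subtype_compl, Fintype.card_subtype]
      have := card_le_univ (univ.filter fun v : W => c v = k)
      omega
    rw [hprod]
    have hc2 : 0 ≤ cnt (fun g : {v // ¬ c v = k} → Bool × Bool =>
        ∀ i < k, ∃ v : {v // ¬ c v = k}, c v.1 = i ∧ g v = (true, true)) := by
      unfold cnt
      positivity
    refine (mul_le_mul h1 h2 hc2 (mul_nonneg hK0 (by positivity))).trans (le_of_eq ?_)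
    rw [← hsum, pow_add, pow_succ]
    ring

end Pool.Agent.H10.EAG
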