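import Pool.Agent.H39.EAG.Targets

/-!
# Row FAI: the bound for the failing graphs
-/

set_option autoImplicit false

open Finset Filter Topology Pool.Agent.H39.EAG

namespace Pool.Agent.H10.EAG

lemma cnt_mono {Ω : Type} [Fintype Ω] (P Q : Ω → Prop) (h : ∀ ω, P ω → Q ω) :
    cnt P ≤ cnt Q := by
  classical
  unfold cnt
  refine Nat.cast_le.2 (card_le_card fun ω hω => ?_)
  rw [mem_filter] at hω ⊢
  exact ⟨hω.1, h ω hω.2⟩

lemma cnt_eq {Ω : Type} [Fintype Ω] (P : Ω → Prop) [DecidablePred P] :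
    cnt P = ((univ.filter P).card : ℝ) := by
  unfold cnt
  congr

lemma cnt_or {Ω : Type} [Fintype Ω] (P Q : Ω → Prop) :
    cnt (fun ω => P ω ∨ Q ω) ≤ cnt P + cnt Q := by
  classical
  rw [cnt_eq (fun ω => P ω ∨ Q ω), cnt_eq P, cnt_eq Q, ← Nat.cast_add]
  refine Nat.cast_le.2 ((card_le_card fun ω hω => ?_).trans (card_union_le _ _))
  have h2 := (mem_filter.1 hω).2
  rw [mem_union, mem_filter, mem_filter]
  exact h2.imp (fun h => ⟨mem_univ _, h⟩) fun h => ⟨mem_univ _, h⟩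

lemma cnt_ex {Ω ι : Type} [Fintype Ω] [Fintype ι] (P : ι → Ω → Prop) :
    cnt (fun ω => ∃ i, P i ω) ≤ ∑ i, cnt (P i) := by
  classical
  rw [cnt_eq (fun ω => ∃ i, P i ω), sum_congr rfl fun i _ => cnt_eq (P i), ← Nat.cast_sum]
  refine Nat.cast_le.2 ((card_le_card (t := univ.biUnion fun i => univ.filter (P i))
    fun ω hω => ?_).trans card_biUnion_le)
  obtain ⟨i, hi⟩ := (mem_filter.1 hω).2
  rw [mem_biUnion]
  exact ⟨i, mem_univ i, by rw [mem_filter]; exact ⟨mem_univ ω, hi⟩⟩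

set_option linter.unusedVariables false in
/-- FAI: the bound for the failing graphs. -/
theorem pf_FAI (hA : T_CHA) (hB : T_CHB) (hD : T_DET) (hM : T_LMB) (hP : T_ALP) (hN : T_NBH) :
    T_FAI := by
  intro n r L hr hrL hL0
  set l : ℕ := Nat.clog 2 n with hl
  set L0 : ℕ := n / (2 * l) / 3 with hL0'
  set N : ℕ := Fintype.card (Sym2 (Fin n)) with hN'
  have hnl : n ≤ 2 ^ l := Nat.le_pow_clog (by norm_num) n
  have hsub : ∀ ω : Om n, ¬ ELT (gr ω) →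
      (∃ I : Finset (Fin n), I.card = 2 * l + 1 ∧ Ind (gr ω) I) ∨
      ((∃ x m : Fin n, (∀ I, Ind (gr ω) I → I.card ≤ 2 * l) ∧
        L0 ≤ chi (gr ω) (Rx (gr ω) x m) ∧ Bad (gr ω) x m) ∨
      (∀ x, 2 * chi (gr ω) (nbr (gr ω) x) + 1 < chi (gr ω) univ)) := by
    intro ω hω
    by_contra hcon
    rw [not_or, not_or] at hcon
    obtain ⟨c1, c2, c3⟩ := hcon
    apply hω
    have hind : ∀ I, Ind (gr ω) I → I.card ≤ 2 * l := by
      intro I hI
      by_contra hlt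
      obtain ⟨J, hJI, hJ⟩ := exists_subset_card_eq (show 2 * l + 1 ≤ I.card by omega)
      exact c1 ⟨J, hJ, fun u hu v hv => hI u (hJI hu) v (hJI hv)⟩
    have hcard := (hB (Fin n) (gr ω)).2.2.2 univ (2 * l) fun I _ hI => hind I hI
    rw [card_univ, Fintype.card_fin] at hcard
    have h1 : n / (2 * l) ≤ chi (gr ω) univ :=
      Nat.div_le_of_le_mul (by rw [mul_comm]; exact hcard)
    have h2 : 3 * L0 ≤ n / (2 * l) := by
      rw [hL0']
      exact Nat.mul_div_le _ _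
    refine hD n L0 (gr ω) (by omega) ?_ ?_
    · by_contra h
      apply c3
      intro x
      by_contra hx
      exact h ⟨x, by omega⟩
    · intro x m hx hbad
      exact c2 ⟨x, m, hind, hx, hbad⟩
  refine (cnt_mono _ _ hsub).trans ?_
  refine (cnt_or _ _).trans ?_
  have h1 := hP n l hnl
  have h3 := hN n r L hr hrL
  have h2 : cnt (fun ω : Om n => ∃ x m : Fin n, (∀ I, Ind (gr ω) I → I.card ≤ 2 * l) ∧
      L0 ≤ chi (gr ω) (Rx (gr ω) x m) ∧ Bad (gr ω) x m) ≤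
      (n : ℝ) ^ 2 * (1 - (3 / 4 : ℝ) ^ (2 * l)) ^ L0 * 2 ^ N := by
    refine (cnt_ex _).trans ?_
    have h4 : ∀ x ∈ (univ : Finset (Fin n)), cnt (fun ω : Om n => ∃ m : Fin n,
        (∀ I, Ind (gr ω) I → I.card ≤ 2 * l) ∧
        L0 ≤ chi (gr ω) (Rx (gr ω) x m) ∧ Bad (gr ω) x m) ≤
        n * ((1 - (3 / 4 : ℝ) ^ (2 * l)) ^ L0 * 2 ^ N) := by
      intro x _
      refine (cnt_ex _).trans ?_
      refine (sum_le_sum fun m _ => hM n (2 * l) L0 x m).trans (le_of_eq ?_)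
      rw [sum_const, card_univ, Fintype.card_fin, nsmul_eq_mul]
    refine (sum_le_sum h4).trans (le_of_eq ?_)
    rw [sum_const, card_univ, Fintype.card_fin, nsmul_eq_mul]
    ring
  have h5 := (cnt_or (fun ω : Om n => ∃ x m : Fin n, (∀ I, Ind (gr ω) I → I.card ≤ 2 * l) ∧
      L0 ≤ chi (gr ω) (Rx (gr ω) x m) ∧ Bad (gr ω) x m)
      (fun ω : Om n => ∀ x, 2 * chi (gr ω) (nbr (gr ω) x) + 1 < chi (gr ω) univ))
  calc _ ≤ 1 / ((2 * l + 1).factorial : ℝ) * 2 ^ N +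
        ((n : ℝ) ^ 2 * (1 - (3 / 4 : ℝ) ^ (2 * l)) ^ L0 * 2 ^ N +
        ((1 - (1 / 2 : ℝ) ^ (r.choose 2)) ^ L + L * ((1 / 2 : ℝ) ^ (r.choose 2) *
          (1 / 2 : ℝ) ^ r)) * 2 ^ N) :=
        add_le_add h1 (h5.trans (add_le_add h2 h3))
    _ = _ := by ring

end Pool.Agent.H10.EAG
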